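import Mathlib

namespace Pool.Agent.H.MP_57aba6_an

open Finset Filter Topology MeasureTheory Real

lemma log_le_quad {y L : ℝ} (h : 0 < 1 + y) (hL : y ≤ L) :
    log (1 + y) ≤ y - y ^ 2 / (2 * (2 + L)) := by
  obtain ⟨z, hz, hz2⟩ : ∃ z : ℝ, 0 < z ∧ z ^ 2 = 1 + y := ⟨√(1 + y), sqrt_pos.2 h, sq_sqrt h.le⟩
  have h1 : log (1 + y) = 2 * log z := by rw [← hz2, log_pow]; norm_num
  have h2 := log_le_sub_one_of_pos hz
  have h3 : y ^ 2 / (2 * (2 + L)) ≤ (z - 1) ^ 2 := by
    rw [div_le_iff₀ (by linarith)]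
    have h4 : y ^ 2 = (z - 1) ^ 2 * (z + 1) ^ 2 := by
      have : y = z ^ 2 - 1 := by linarith
      rw [this]; ring
    rw [h4]
    exact mul_le_mul_of_nonneg_left (by nlinarith [sq_nonneg (z - 1)]) (sq_nonneg _)
  nlinarith

lemma lim_log (y : ℝ) :
    Tendsto (fun r : ℝ => r ^ 2 * (log (1 + y / r) - y / r)) atTop (𝓝 (-y ^ 2 / 2)) := by
  have h0 : Tendsto (fun r : ℝ => 2 * |y| ^ 3 / r) atTop (𝓝 0) := tendsto_const_nhds.div_atTop tendsto_id
  rw [tendsto_iff_norm_sub_tendsto_zero]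
  refine squeeze_zero' (Eventually.of_forall fun _ => norm_nonneg _) ?_ h0
  filter_upwards [eventually_ge_atTop (2 * |y|), eventually_gt_atTop 0] with r h1 h2
  have h3 : |-(y / r)| ≤ 1 / 2 := by
    rw [abs_neg, abs_div, abs_of_pos h2, div_le_iff₀ h2]; linarith
  have h4 := abs_log_sub_add_sum_range_le (x := -(y / r)) (by linarith) 2
  have h5 : r ^ 2 * (log (1 + y / r) - y / r) - -y ^ 2 / 2 = r ^ 2 *
      (∑ i ∈ range 2, (-(y / r)) ^ (i + 1) / (i + 1) + log (1 - -(y / r))) := by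
    simp only [sum_range_succ, range_zero, sum_empty, sub_neg_eq_add]
    generalize log (1 + y / r) = t
    push_cast
    field_simp
    ring
  rw [Real.norm_eq_abs, h5, abs_mul, abs_of_nonneg (sq_nonneg r)]
  have h6 : |-(y / r)| ^ (2 + 1) / (1 - |-(y / r)|) ≤ 2 * |y| ^ 3 / r ^ 3 := by
    rw [div_le_iff₀ (by linarith)]
    have h7 : |-(y / r)| ^ (2 + 1) = |y| ^ 3 / r ^ 3 := by
      rw [abs_neg, abs_div, abs_of_pos h2, div_pow]
    rw [h7]
    have : 0 ≤ |y| ^ 3 / r ^ 3 := by positivity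
    have h8 : 2 * |y| ^ 3 / r ^ 3 = 2 * (|y| ^ 3 / r ^ 3) := by ring
    rw [h8]
    nlinarith
  calc _ ≤ r ^ 2 * (2 * |y| ^ 3 / r ^ 3) := mul_le_mul_of_nonneg_left (h4.trans h6) (sq_nonneg r)
    _ = _ := by field_simp

lemma laplace {ι : Type} [Fintype ι] [Nonempty ι] (c α : ι → ℝ) {a b : ℝ} (ha : a < 0) (hb : 0 < b)
    (hpos : ∀ y ∈ Set.Ioo a b, ∀ j, 0 < 1 + c j * y) (hα : ∀ j, 0 < α j) (hc : ∀ j, c j ≠ 0)
    (hs : ∑ j, α j * c j = 0) : ∃ K : ℝ, 0 < K ∧ ∀ (m : ℕ → ι → ℕ) (r : ℕ → ℝ) (D : ℝ),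
      Tendsto r atTop atTop → (∀ᶠ n in atTop, ∀ j, |m n j - r n ^ 2 * α j| ≤ D) →
      Tendsto (fun n => r n * ∫ y in a..b, ∏ j, (1 + c j * y) ^ m n j) atTop (𝓝 K) := by
  classical
  obtain ⟨j0⟩ := ‹Nonempty ι›
  have hB : 0 < ∑ j, α j * c j ^ 2 / 2 :=
    sum_pos (fun j _ => by have := hα j; have := hc j; positivity) univ_nonempty
  refine ⟨∫ u : ℝ, exp (-(∑ j, α j * c j ^ 2 / 2) * u ^ 2), by
    rw [integral_gaussian]; exact sqrt_pos.2 (div_pos pi_pos hB), fun m r D hr hm => ?_⟩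
  obtain ⟨G, hG⟩ : ∃ G : ℕ → ℝ → ℝ, ∀ n, G n = (Set.Ioo a b).indicator
    (fun y => ∏ j, (1 + c j * y) ^ m n j) := ⟨_, fun _ => rfl⟩
  have h1 : ∀ᶠ n in atTop, ∫ u, G n (u / r n) = r n * ∫ y in a..b, ∏ j, (1 + c j * y) ^ m n j := by
    filter_upwards [hr.eventually_gt_atTop 0] with n hn
    rw [Measure.integral_comp_div, abs_of_pos hn, hG, integral_indicator measurableSet_Ioo,
      intervalIntegral.integral_of_le (by linarith), integral_Ioc_eq_integral_Ioo, smul_eq_mul]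
  refine Tendsto.congr' h1 ?_
  have hexp : ∀ n, ∀ y ∈ Set.Ioo a b, G n y = exp (∑ j, m n j * log (1 + c j * y)) := by
    intro n y hy
    rw [hG, Set.indicator_of_mem hy, exp_sum]
    exact prod_congr rfl fun j _ => by rw [exp_nat_mul, exp_log (hpos y hy j)]
  obtain ⟨L, hL⟩ : ∃ L, L = |c j0| * (b - a) := ⟨_, rfl⟩
  have hL0 : 0 < L := by rw [hL]; have := hc j0; have : 0 < b - a := by linarith
                         positivity
  obtain ⟨B, hBB⟩ : ∃ B, B = α j0 / 2 * c j0 ^ 2 / (2 * (2 + L)) := ⟨_, rfl⟩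
  have hB0 : 0 < B := by rw [hBB]; have := hα j0; have := hc j0; positivity
  obtain ⟨A, hA⟩ : ∃ A, A = D * ∑ j, |c j| := ⟨_, rfl⟩
  refine tendsto_integral_filter_of_dominated_convergence
    (fun u => exp (A ^ 2 / (2 * B)) * exp (-(B / 2) * u ^ 2)) (Eventually.of_forall fun n => ?_) ?_
    ((integrable_exp_neg_mul_sq (by positivity)).const_mul _) (ae_of_all _ fun u => ?_)
  · rw [hG]
    exact (((Measurable.indicator (by fun_prop) measurableSet_Ioo)).comp
      (measurable_id.div_const _)).aestronglyMeasurable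
  · filter_upwards [hm, hr.eventually_ge_atTop 1,
      ((tendsto_pow_atTop two_ne_zero).comp hr).eventually_ge_atTop (2 * D / α j0)] with n h2 h3 h4
    refine ae_of_all _ fun u => ?_
    by_cases hy : u / r n ∈ Set.Ioo a b
    swap
    · rw [hG, Set.indicator_of_notMem hy, norm_zero]; positivity
    rw [hexp n _ hy, Real.norm_eq_abs, abs_of_pos (exp_pos _), ← exp_add, exp_le_exp]
    obtain ⟨y, hy2⟩ : ∃ y, y = u / r n := ⟨_, rfl⟩
    rw [← hy2] at hy ⊢
    have hu : u = y * r n := by rw [hy2]; field_simp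
    have h5 : ∑ j, m n j * log (1 + c j * y) ≤
        ∑ j, (m n j * (c j * y) - if j = j0 then m n j0 * ((c j0 * y) ^ 2 / (2 * (2 + L))) else 0) := by
      refine sum_le_sum fun j _ => ?_
      split_ifs with hj
      · subst hj
        rw [← mul_sub]
        refine mul_le_mul_of_nonneg_left (log_le_quad (hpos y hy j) ?_) (Nat.cast_nonneg _)
        refine (le_abs_self _).trans ?_
        rw [abs_mul, hL]
        exact mul_le_mul_of_nonneg_left (abs_le.2 ⟨by linarith [hy.1], by linarith [hy.2]⟩)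
          (abs_nonneg _)
      · rw [sub_zero]
        refine mul_le_mul_of_nonneg_left ?_ (Nat.cast_nonneg _)
        linarith [log_le_sub_one_of_pos (hpos y hy j)]
    rw [sum_sub_distrib, sum_ite_eq', if_pos (mem_univ _)] at h5
    have h6 : ∑ j, m n j * (c j * y) ≤ A * |u| := by
      have e1 : ∑ j, m n j * (c j * y) = ∑ j, (m n j - r n ^ 2 * α j) * (c j * y) := by
        have : ∑ j, r n ^ 2 * α j * (c j * y) = r n ^ 2 * y * ∑ j, α j * c j := by
          rw [mul_sum]; exact sum_congr rfl fun j _ => by ring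
        simp only [sub_mul, sum_sub_distrib, this, hs, mul_zero, sub_zero]
      rw [e1, hA, mul_sum, sum_mul]
      refine sum_le_sum fun j _ => (le_abs_self _).trans ?_
      rw [abs_mul, abs_mul, mul_assoc]
      refine mul_le_mul (h2 j) (mul_le_mul_of_nonneg_left ?_ (abs_nonneg _)) (by positivity)
        ((abs_nonneg _).trans (h2 j))
      rw [hu, abs_mul, abs_of_pos (by linarith : 0 < r n)]
      nlinarith [abs_nonneg y]
    have h7 : B * u ^ 2 ≤ m n j0 * ((c j0 * y) ^ 2 / (2 * (2 + L))) := by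
      have e1 : B * u ^ 2 = (r n ^ 2 * α j0 / 2) * ((c j0 * y) ^ 2 / (2 * (2 + L))) := by
        rw [hBB, hu]; ring
      rw [e1]
      refine mul_le_mul_of_nonneg_right ?_ (by positivity)
      have h8 := (abs_le.1 (h2 j0)).1
      have h9 : 2 * D / α j0 ≤ r n ^ 2 := h4
      rw [div_le_iff₀ (hα j0)] at h9
      linarith
    have h8 : A * |u| ≤ A ^ 2 / (2 * B) + B / 2 * u ^ 2 := by
      have : A ^ 2 / (2 * B) + B / 2 * u ^ 2 - A * |u| = (A - B * |u|) ^ 2 / (2 * B) := by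
        rw [← sq_abs u]; field_simp; ring
      have : 0 ≤ (A - B * |u|) ^ 2 / (2 * B) := by positivity
      linarith
    linarith
  · have h2 : Tendsto (fun n => u / r n) atTop (𝓝 0) := tendsto_const_nhds.div_atTop hr
    have h3 : Tendsto (fun n => ∑ j, (α j * (r n ^ 2 * (log (1 + c j * u / r n) - c j * u / r n)) +
        (m n j - r n ^ 2 * α j) * log (1 + c j * u / r n))) atTop
        (𝓝 (∑ j, (α j * (-(c j * u) ^ 2 / 2) + 0))) := by
      refine tendsto_finsetSum _ fun j _ => (((lim_log (c j * u)).comp hr).const_mul _).add ?_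
      have h4 : Tendsto (fun n => log (1 + c j * u / r n)) atTop (𝓝 0) := by
        have h5 : Tendsto (fun n => 1 + c j * u / r n) atTop (𝓝 (1 + 0)) :=
          (tendsto_const_nhds.div_atTop hr).const_add 1
        simpa using h5.log (by norm_num)
      rw [tendsto_zero_iff_norm_tendsto_zero] at h4 ⊢
      refine squeeze_zero' (Eventually.of_forall fun _ => norm_nonneg _) ?_
        (by simpa using h4.const_mul D)
      filter_upwards [hm] with n hn
      rw [norm_mul]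
      exact mul_le_mul_of_nonneg_right (hn j) (norm_nonneg _)
    have h4 : ∑ j, (α j * (-(c j * u) ^ 2 / 2) + 0) = -(∑ j, α j * c j ^ 2 / 2) * u ^ 2 := by
      rw [neg_mul, sum_mul, ← sum_neg_distrib]
      exact sum_congr rfl fun j _ => by ring
    rw [h4] at h3
    refine Tendsto.congr' ?_ h3.rexp
    filter_upwards [h2.eventually (Ioo_mem_nhds ha hb), hr.eventually_gt_atTop 0] with n hn h5
    rw [hexp n _ hn]
    congr 1
    have h6 : ∑ j, α j * (r n ^ 2 * (c j * u / r n)) = r n * u * ∑ j, α j * c j := by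
      rw [mul_sum]; exact sum_congr rfl fun j _ => by field_simp
    rw [hs, mul_zero] at h6
    rw [← sub_zero (∑ j, (m n j : ℝ) * _), ← h6, ← sum_sub_distrib]
    exact sum_congr rfl fun j _ => by rw [mul_div_assoc]; ring

lemma params : ∃ g s b : ℝ, 0 < g ∧ 0 < b ∧ b < s ∧ s < 1 ∧ s ^ 2 - b ^ 2 = g * (1 - s ^ 2) ∧
    log (1 - s ^ 2) + g * log ((s ^ 2 - b ^ 2) / b ^ 2) = 0 ∧ Irrational g ∧
    Irrational (log ((1 + s) / (1 - s)) / log ((s + b) / (s - b))) := by
  obtain ⟨ψ, hψ⟩ : ∃ ψ : ℝ → ℝ → ℝ, ∀ g r, ψ g r = g * log r - log (1 + g + g / r) :=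
    ⟨_, fun _ _ => rfl⟩
  have hcont : ContinuousOn (fun p : ℝ × ℝ => ψ p.1 p.2) (Set.Icc 1 2 ×ˢ Set.Icc 2 3) := by
    simp only [hψ]
    refine (continuousOn_fst.mul (continuousOn_snd.log fun p hp => ?_)).sub
      (((continuousOn_const.add continuousOn_fst).add
        (continuousOn_fst.div continuousOn_snd fun p hp => ?_)).log fun p hp => ?_)
    · linarith [hp.2.1]
    · linarith [hp.2.1]
    · have := hp.1.1; have := hp.2.1
      show 1 + p.1 + p.1 / p.2 ≠ 0
      positivity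
  have hmono : ∀ g ∈ Set.Icc (1 : ℝ) 2, ∀ r r' : ℝ, 2 ≤ r → r < r' → ψ g r < ψ g r' := by
    intro g hg r r' h1 h2
    have := hg.1
    have h3 : log r < log r' := log_lt_log (by linarith) h2
    have h4 : log (1 + g + g / r') ≤ log (1 + g + g / r) := by
      have : 0 < r' := by linarith
      refine log_le_log (by positivity) ?_
      have : g / r' ≤ g / r := div_le_div_of_nonneg_left (by linarith) (by linarith) h2.le
      linarith
    rw [hψ, hψ]
    nlinarith
  have huniq : ∀ g ∈ Set.Icc (1 : ℝ) 2, ∀ r r' : ℝ, 2 ≤ r → 2 ≤ r' → ψ g r = 0 → ψ g r' = 0 →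
      r = r' := by
    intro g hg r r' h1 h2 h3 h4
    rcases lt_trichotomy r r' with h | h | h
    · linarith [hmono g hg r r' h1 h]
    · exact h
    · linarith [hmono g hg r' r h2 h]
  have hex : ∀ g ∈ Set.Icc (1 : ℝ) 2, ∃ r ∈ Set.Icc (2 : ℝ) 3, ψ g r = 0 := by
    intro g hg
    have := hg.1
    have := hg.2
    refine intermediate_value_Icc (by norm_num : (2 : ℝ) ≤ 3) (f := ψ g)
      (hcont.comp (continuousOn_const.prodMk continuousOn_id) fun r hr => ⟨hg, hr⟩) ⟨?_, ?_⟩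
    · rw [hψ, sub_nonpos, ← log_rpow (by norm_num)]
      refine log_le_log (by positivity) ?_
      have h1 := rpow_one_add_le_one_add_mul_self (s := 1) (by norm_num) (p := g - 1) (by linarith)
        (by linarith)
      rw [one_add_one_eq_two, rpow_sub_one (by norm_num)] at h1
      linarith
    · rw [hψ, sub_nonneg, ← log_rpow (by norm_num)]
      refine log_le_log (by positivity) ?_
      have h1 := one_add_mul_self_le_rpow_one_add (s := 2) (by norm_num) (p := g) (by linarith)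
      norm_num at h1
      linarith
  choose! R hR1 hR2 using hex
  have hRc : ContinuousOn R (Set.Icc 1 2) := by
    rw [continuousOn_iff_isClosed]
    intro t ht
    refine ⟨Prod.fst '' ((Set.Icc 1 2 ×ˢ Set.Icc 2 3 ∩ (fun p : ℝ × ℝ => ψ p.1 p.2) ⁻¹' {0}) ∩
      Prod.snd ⁻¹' t), (IsCompact.image ?_ continuous_fst).isClosed, ?_⟩
    · exact ((isCompact_Icc.prod isCompact_Icc).of_isClosed_subset
        (hcont.preimage_isClosed_of_isClosed (isClosed_Icc.prod isClosed_Icc) isClosed_singleton)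
        Set.inter_subset_left).inter_right (ht.preimage continuous_snd)
    · ext g
      constructor
      · rintro ⟨h1, h2⟩
        exact ⟨⟨(g, R g), ⟨⟨⟨h2, hR1 g h2⟩, hR2 g h2⟩, h1⟩, rfl⟩, h2⟩
      · rintro ⟨⟨⟨g', r⟩, ⟨⟨⟨-, h1⟩, h2⟩, h3⟩, rfl⟩, h4⟩
        refine ⟨?_, h4⟩
        rw [Set.mem_preimage, huniq g' h4 _ r (hR1 g' h4).1 h1.1 (hR2 g' h4) h2]
        exact h3
  obtain ⟨W, hW⟩ : ∃ W : ℝ → ℝ, ∀ g, W g = (1 + g + g / R g)⁻¹ := ⟨_, fun _ => rfl⟩
  obtain ⟨S, hS⟩ : ∃ S : ℝ → ℝ, ∀ g, S g = √(1 - W g) := ⟨_, fun _ => rfl⟩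
  obtain ⟨T, hT⟩ : ∃ T : ℝ → ℝ, ∀ g, T g = √(g * W g / R g) := ⟨_, fun _ => rfl⟩
  have key : ∀ g ∈ Set.Icc (1 : ℝ) 2, 0 < T g ∧ T g < S g ∧ S g < 1 ∧ S g ^ 2 = 1 - W g ∧
      T g ^ 2 = g * W g / R g ∧ S g ^ 2 - T g ^ 2 = g * W g ∧ 0 < W g := by
    intro g hg
    have := hg.1
    have := (hR1 g hg).1
    have h1 : 0 < W g := by rw [hW]; positivity
    have h2 : W g * (1 + g + g / R g) = 1 := by rw [hW]; exact inv_mul_cancel₀ (by positivity)
    have h3 : 0 < g * W g / R g := by positivity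
    have h4 : 1 - W g - g * W g / R g = g * W g := by linear_combination -h2
    have h5 : 0 < g * W g := by positivity
    have h6 : S g ^ 2 = 1 - W g := by rw [hS, sq_sqrt (by linarith)]
    have h7 : T g ^ 2 = g * W g / R g := by rw [hT, sq_sqrt h3.le]
    refine ⟨by rw [hT]; exact sqrt_pos.2 h3, by rw [hS, hT]; exact sqrt_lt_sqrt h3.le (by linarith),
      by rw [hS, sqrt_lt' one_pos]; linarith, h6, h7, by linarith, h1⟩
  obtain ⟨ρ, hρ⟩ : ∃ ρ : ℝ → ℝ, ∀ g, ρ g = log ((1 + S g) / (1 - S g)) /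
    log ((S g + T g) / (S g - T g)) := ⟨_, fun _ => rfl⟩
  have hlog : ∀ g ∈ Set.Icc (1 : ℝ) 2, 0 < log ((S g + T g) / (S g - T g)) := fun g hg => by
    obtain ⟨h1, h2, -⟩ := key g hg
    exact log_pos (by rw [lt_div_iff₀ (by linarith)]; linarith)
  have hρc : ContinuousOn ρ (Set.Icc 1 2) := by
    have hR0 : ∀ g ∈ Set.Icc (1 : ℝ) 2, R g ≠ 0 := fun g hg => by linarith [(hR1 g hg).1]
    have hWc : ContinuousOn W (Set.Icc 1 2) := by
      rw [funext hW]
      refine ((continuousOn_const.add continuousOn_id).add (continuousOn_id.div hRc hR0)).inv₀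
        fun g hg => ?_
      have := hg.1; have := (hR1 g hg).1
      show 1 + g + g / R g ≠ 0
      positivity
    have hSc : ContinuousOn S (Set.Icc 1 2) := by
      rw [funext hS]; exact (continuousOn_const.sub hWc).sqrt
    have hTc : ContinuousOn T (Set.Icc 1 2) := by
      rw [funext hT]; exact ((continuousOn_id.mul hWc).div hRc hR0).sqrt
    rw [funext hρ]
    refine (((continuousOn_const.add hSc).div (continuousOn_const.sub hSc) fun g hg => ?_).log
      fun g hg => ?_).div (((hSc.add hTc).div (hSc.sub hTc) fun g hg => ?_).log fun g hg => ?_)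
      fun g hg => (hlog g hg).ne'
    all_goals obtain ⟨h1, h2, h3, -⟩ := key g hg
    all_goals simp only [Pi.sub_apply, Pi.add_apply, Pi.div_apply]
    · linarith
    · exact div_ne_zero (by linarith) (by linarith)
    · linarith
    · exact div_ne_zero (by linarith) (by linarith)
  have htwo : ∀ g ∈ Set.Icc (1 : ℝ) 2, ρ g = 2 ↔ S g ^ 2 + T g ^ 2 = 2 * T g := by
    intro g hg
    obtain ⟨h1, h2, h3, -⟩ := key g hg
    have e1 : 2 * log ((S g + T g) / (S g - T g)) = log (((S g + T g) / (S g - T g)) ^ 2) := by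
      rw [log_pow]; norm_num
    have p1 : 0 < (1 + S g) / (1 - S g) := div_pos (by linarith) (by linarith)
    have p2 : 0 < ((S g + T g) / (S g - T g)) ^ 2 := pow_pos (div_pos (by linarith) (by linarith)) 2
    rw [hρ, div_eq_iff (hlog g hg).ne', e1, log_injOn_pos.eq_iff p1 p2, div_pow,
      div_eq_div_iff (by linarith) (pow_ne_zero 2 (by linarith))]
    constructor
    · intro h
      have : S g * (S g ^ 2 + T g ^ 2 - 2 * T g) = 0 := by linear_combination h / 2
      have := (mul_eq_zero.1 this).resolve_left (by linarith)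
      linarith
    · intro h
      linear_combination 2 * S g * h
  have m1 : (1 : ℝ) ∈ Set.Icc (1 : ℝ) 2 := ⟨le_rfl, by norm_num⟩
  have m2 : (2 : ℝ) ∈ Set.Icc (1 : ℝ) 2 := ⟨by norm_num, le_rfl⟩
  have hne : ρ 1 ≠ ρ 2 := by
    have r2 : R 2 = 2 := huniq 2 m2 _ _ (hR1 2 m2).1 le_rfl (hR2 2 m2) (by
      rw [hψ, show (1 : ℝ) + 2 + 2 / 2 = 2 ^ 2 by norm_num, log_pow]; norm_num)
    have e2 : ρ 2 = 2 := by
      obtain ⟨h1, -, -, h4, h5, -⟩ := key 2 m2
      rw [hW, r2] at h4 h5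
      have : T 2 = 1 / 2 := by nlinarith
      rw [htwo 2 m2, h4, this]; norm_num
    rw [e2, Ne, htwo 1 m1]
    intro h
    obtain ⟨h1, -, -, h4, h5, h6, h7⟩ := key 1 m1
    have h8 := hR2 1 m1
    have h9 := (hR1 1 m1).1
    rw [hψ, one_mul, sub_eq_zero] at h8
    have h10 : R 1 = 1 + 1 + 1 / R 1 :=
      log_injOn_pos (show (0 : ℝ) < R 1 by linarith) (show (0 : ℝ) < _ by positivity) h8
    have h11 : W 1 * R 1 = 1 := by rw [hW, ← h10]; exact inv_mul_cancel₀ (by linarith)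
    have h12 : 1 / R 1 = W 1 := by rw [div_eq_iff (by linarith), h11]
    have h13 : T 1 ^ 2 = W 1 ^ 2 := by rw [h5, div_eq_mul_one_div, h12]; ring
    have h14 : T 1 = W 1 := by nlinarith
    rw [h14] at h h6
    have h15 : W 1 = 2 / 5 := by nlinarith
    rw [h15] at h h4
    nlinarith
  have hunc : ¬ (Set.uIcc (ρ 1) (ρ 2) ⊆ Set.range ((↑) : ℚ → ℝ) ∪ ρ '' Set.range ((↑) : ℚ → ℝ)) := by
    intro h
    have h1 := ((Set.countable_range _).union ((Set.countable_range _).image ρ)).mono h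
    have h2 := h1.measure_zero volume
    rw [Set.uIcc, volume_Icc, ENNReal.ofReal_eq_zero] at h2
    rcases lt_or_gt_of_ne hne with h3 | h3
    · rw [max_eq_right h3.le, min_eq_left h3.le] at h2; linarith
    · rw [max_eq_left h3.le, min_eq_right h3.le] at h2; linarith
  obtain ⟨y, hy, hy2⟩ := Set.not_subset.1 hunc
  obtain ⟨g, hg, rfl⟩ := intermediate_value_uIcc (a := 1) (b := 2) (f := ρ)
    (by rwa [Set.uIcc_of_le (by norm_num)]) hy
  rw [Set.uIcc_of_le (by norm_num)] at hg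
  obtain ⟨h1, h2, h3, h4, h5, h6, h7⟩ := key g hg
  refine ⟨g, S g, T g, by linarith [hg.1], h1, h2, h3, by rw [h6, h4]; ring, ?_,
    fun h => hy2 (Or.inr ⟨g, h, rfl⟩), fun h => hy2 (Or.inl (by rw [hρ]; exact h))⟩
  have h8 := hR2 g hg
  have := hg.1
  have := (hR1 g hg).1
  have h9 : (S g ^ 2 - T g ^ 2) / T g ^ 2 = R g := by rw [h6, h5]; field_simp
  rw [h9, h4, sub_sub_cancel, hW, log_inv, ← h8, hψ]
  ring

end Pool.Agent.H.MP_57aba6_an
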