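import Pool.Agent.H.MP_57aba6_an.A

namespace Pool.Agent.H.MP_57aba6_an

open Finset Filter Topology MeasureTheory Real

/-- The integral of the derivative over a gap. -/
noncomputable def gap (b : ℝ) (m : Fin 4 → ℕ) (p q : ℝ) : ℝ :=
  ∫ t in p..q, ∏ j, (t - ![-1, -b, b, 1] j) ^ m j

lemma gap_lim {ι : Type} [Fintype ι] [Nonempty ι] (x α : ι → ℝ) {p q z : ℝ} (hp : p < z) (hq : z < q)
    (hx : ∀ j, x j ≤ p ∨ q ≤ x j) (hα : ∀ j, 0 < α j) (hs : ∑ j, α j * (z - x j)⁻¹ = 0) :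
    ∃ K : ℝ, 0 < K ∧ ∀ (m : ℕ → ι → ℕ) (r : ℕ → ℝ) (D : ℝ),
      Tendsto r atTop atTop → (∀ᶠ n in atTop, ∀ j, |m n j - r n ^ 2 * α j| ≤ D) →
      Tendsto (fun n => r n * (∫ t in p..q, ∏ j, (t - x j) ^ m n j) / ∏ j, (z - x j) ^ m n j)
        atTop (𝓝 K) := by
  have h0 : ∀ j, z - x j ≠ 0 := fun j => by
    rcases hx j with h | h
    · linarith
    · linarith
  obtain ⟨K, hK, h⟩ := laplace (fun j => (z - x j)⁻¹) α (a := p - z) (b := q - z) (by linarith)
    (by linarith) (fun y hy j => by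
      have : 1 + (z - x j)⁻¹ * y = (z + y - x j) / (z - x j) := by
        have := h0 j
        field_simp
        ring
      rw [this]
      rcases hx j with h | h
      · exact div_pos (by linarith [hy.1]) (by linarith)
      · exact div_pos_of_neg_of_neg (by linarith [hy.2]) (by linarith)) hα
    (fun j => inv_ne_zero (h0 j)) hs
  refine ⟨K, hK, fun m r D h1 h2 => (h m r D h1 h2).congr fun n => ?_⟩
  rw [mul_div_assoc, ← intervalIntegral.integral_div,
    ← intervalIntegral.integral_comp_sub_right (fun y => ∏ j, (1 + (z - x j)⁻¹ * y) ^ m n j) z]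
  congr 2
  ext t
  rw [← prod_div_distrib]
  refine prod_congr rfl fun j _ => ?_
  rw [← div_pow]
  congr 1
  have := h0 j
  field_simp
  ring

lemma approx (g : ℝ) : ∃ q l : ℕ → ℤ, Tendsto (fun n => (q n : ℝ)) atTop atTop ∧
    Tendsto (fun n => (l n : ℝ) - q n * g) atTop (𝓝 0) := by
  choose j k h1 h2 h3 using fun n : ℕ => exists_int_int_abs_mul_sub_le g (n := (n + 1) ^ 2)
    (by positivity)
  refine ⟨fun n => k n * (n + 1), fun n => j n * (n + 1), ?_, ?_⟩
  · refine tendsto_atTop_mono (fun n => ?_) tendsto_natCast_atTop_atTop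
    have : (1 : ℝ) ≤ k n := by exact_mod_cast h1 n
    push_cast
    nlinarith [Nat.cast_nonneg (α := ℝ) n]
  · rw [tendsto_zero_iff_norm_tendsto_zero]
    refine squeeze_zero (fun _ => norm_nonneg _) (fun n => ?_)
      tendsto_one_div_add_atTop_nhds_zero_nat
    have e : ((j n * (n + 1) : ℤ) : ℝ) - ((k n * (n + 1) : ℤ) : ℝ) * g =
        -((n + 1) * (k n * g - j n)) := by push_cast; ring
    rw [e, norm_neg, norm_mul, Real.norm_eq_abs, Real.norm_eq_abs, abs_of_pos (by positivity)]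
    refine (mul_le_mul_of_nonneg_left (h3 n) (by positivity)).trans ?_
    push_cast
    rw [mul_one_div, div_le_div_iff₀ (by positivity) (by positivity)]
    nlinarith

lemma dense_ratio : ∃ b : ℝ, 0 < b ∧ b < 1 ∧ Dense {w : ℝ × ℝ | ∃ m, gap b m (-b) b ≠ 0 ∧
    w = (gap b m (-1) (-b) / gap b m (-b) b, gap b m b 1 / gap b m (-b) b)} := by
  obtain ⟨g, s, b, hg, hb, hbs, hs1, hcr, hbal, ig, iρ⟩ := params
  refine ⟨b, hb, by linarith, ?_⟩
  obtain ⟨E, hE⟩ : ∃ E, E = {w : ℝ × ℝ | ∃ m, gap b m (-b) b ≠ 0 ∧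
    w = (gap b m (-1) (-b) / gap b m (-b) b, gap b m b 1 / gap b m (-b) b)} := ⟨_, rfl⟩
  rw [← hE]
  have hα : ∀ j, 0 < (![1, g, g, 1] : Fin 4 → ℝ) j := fun j => by fin_cases j <;> simp [hg]
  have n1 : 1 - s ≠ 0 := by linarith
  have n2 : 1 + s ≠ 0 := by linarith
  have n3 : s - b ≠ 0 := by linarith
  have n4 : s + b ≠ 0 := by linarith
  have hc : (1 - s)⁻¹ - (1 + s)⁻¹ - g * ((s - b)⁻¹ + (s + b)⁻¹) = 0 := by
    field_simp
    linear_combination 2 * s * hcr
  obtain ⟨K1, k1, l1⟩ := gap_lim ![-1, -b, b, 1] _ (p := -1) (z := -s) (q := -b) (by linarith)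
    (by linarith) (fun j => by fin_cases j <;> simp <;> right <;> linarith) hα (by
      simp only [Fin.sum_univ_four, Matrix.cons_val]
      rw [show -s - -1 = 1 - s by ring, show -s - -b = -(s - b) by ring,
        show -s - b = -(s + b) by ring, show -s - 1 = -(1 + s) by ring, inv_neg, inv_neg, inv_neg]
      linarith)
  obtain ⟨K2, k2, l2⟩ := gap_lim ![-1, -b, b, 1] _ (p := -b) (z := 0) (q := b) (by linarith)
    (by linarith) (fun j => by
      fin_cases j <;> simp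
      · left; linarith
      · right; linarith) hα (by simp [Fin.sum_univ_four])
  obtain ⟨K3, k3, l3⟩ := gap_lim ![-1, -b, b, 1] _ (p := b) (z := s) (q := 1) (by linarith)
    (by linarith) (fun j => by fin_cases j <;> simp <;> left <;> linarith) hα (by
      simp only [Fin.sum_univ_four, Matrix.cons_val]
      rw [show s - -1 = 1 + s by ring, show s - -b = s + b by ring,
        show s - 1 = -(1 - s) by ring, inv_neg]
      linarith)
  obtain ⟨P, hP⟩ : ∃ P, P = log (1 - s) := ⟨_, rfl⟩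
  obtain ⟨Q, hQ⟩ : ∃ Q, Q = log (1 + s) := ⟨_, rfl⟩
  obtain ⟨R, hR⟩ : ∃ R, R = log ((s - b) / b) := ⟨_, rfl⟩
  obtain ⟨S, hS⟩ : ∃ S, S = log ((s + b) / b) := ⟨_, rfl⟩
  have eP : exp P = 1 - s := by rw [hP, exp_log (by linarith)]
  have eQ : exp Q = 1 + s := by rw [hQ, exp_log (by linarith)]
  have eR : exp R = (s - b) / b := by rw [hR, exp_log (div_pos (by linarith) hb)]
  have eS : exp S = (s + b) / b := by rw [hS, exp_log (div_pos (by linarith) hb)]
  have hPQ : P + Q = log (1 - s ^ 2) := by rw [hP, hQ, ← log_mul n1 n2]; congr 1; ring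
  have hb2 : P + Q + g * (R + S) = 0 := by
    rw [hPQ, hR, hS, ← log_mul (div_ne_zero n3 hb.ne') (div_ne_zero n4 hb.ne'), ← hbal]
    congr 3
    field_simp
    ring
  obtain ⟨q, l, hq, hl⟩ := approx g
  have st1 : ∀ (e1 e2 : ℕ) (a a' c c' : ℤ), ((-1) ^ e1 * (K1 / K2) *
      exp (a * (2 * (P + Q)) + a' * (2 * (R + S)) - (c * (2 * (Q - P)) + c' * (2 * (S - R))) +
        (e1 * R + e2 * S)), (-1) ^ e2 * (K3 / K2) *
      exp (a * (2 * (P + Q)) + a' * (2 * (R + S)) + (c * (2 * (Q - P)) + c' * (2 * (S - R))) +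
        (e1 * S + e2 * R))) ∈ closure E := by
    intro e1 e2 a a' c c'
    obtain ⟨k, hk⟩ : ∃ k : ℕ → Fin 4 → ℕ, ∀ n, k n = ![(q n + a + c).toNat, (l n + a' + c').toNat,
      (l n + a' - c').toNat, (q n + a - c).toNat] := ⟨_, fun _ => rfl⟩
    have hl2 : Tendsto (fun n => (l n : ℝ)) atTop atTop := by
      have := (hq.atTop_mul_const hg).atTop_add hl
      simpa using this
    have hk2 : ∀ᶠ n in atTop, (k n 0 : ℝ) = q n + a + c ∧ (k n 1 : ℝ) = l n + a' + c' ∧
        (k n 2 : ℝ) = l n + a' - c' ∧ (k n 3 : ℝ) = q n + a - c := by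
      filter_upwards [hq.eventually_ge_atTop (-(a + c)), hq.eventually_ge_atTop (-(a - c)),
        hl2.eventually_ge_atTop (-(a' + c')), hl2.eventually_ge_atTop (-(a' - c'))] with n h1 h2 h3 h4
      have h1 : -(a + c) ≤ q n := by exact_mod_cast h1
      have h2 : -(a - c) ≤ q n := by exact_mod_cast h2
      have h3 : -(a' + c') ≤ l n := by exact_mod_cast h3
      have h4 : -(a' - c') ≤ l n := by exact_mod_cast h4
      simp only [hk, Matrix.cons_val]
      refine ⟨?_, ?_, ?_, ?_⟩ <;> exact_mod_cast Int.toNat_of_nonneg (by omega)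
    obtain ⟨m, hm⟩ : ∃ m : ℕ → Fin 4 → ℕ, ∀ n, m n = ![2 * k n 0, 2 * k n 1 + e1, 2 * k n 2 + e2,
      2 * k n 3] := ⟨_, fun _ => rfl⟩
    obtain ⟨r, hr⟩ : ∃ r : ℕ → ℝ, ∀ n, r n = √(2 * q n) := ⟨_, fun _ => rfl⟩
    have hr1 : Tendsto r atTop atTop := by
      rw [funext hr]; exact tendsto_sqrt_atTop.comp (hq.const_mul_atTop two_pos)
    have hD : ∀ᶠ n in atTop, ∀ j, |m n j - r n ^ 2 * (![1, g, g, 1] : Fin 4 → ℝ) j| ≤
        2 * (|(a : ℝ)| + |(c : ℝ)| + |(a' : ℝ)| + |(c' : ℝ)| + 1) + e1 + e2 := by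
      filter_upwards [hk2, hq.eventually_ge_atTop 0,
        hl.eventually (Icc_mem_nhds (by norm_num : (-1 : ℝ) < 0) one_pos)] with n h1 h2 h3 j
      obtain ⟨h4, h5, h6, h7⟩ := h1
      have := le_abs_self (a : ℝ)
      have := neg_abs_le (a : ℝ)
      have := le_abs_self (c : ℝ)
      have := neg_abs_le (c : ℝ)
      have := le_abs_self (a' : ℝ)
      have := neg_abs_le (a' : ℝ)
      have := le_abs_self (c' : ℝ)
      have := neg_abs_le (c' : ℝ)
      have := Nat.cast_nonneg (α := ℝ) e1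
      have := Nat.cast_nonneg (α := ℝ) e2
      have := h3.1
      have := h3.2
      rw [hr, sq_sqrt (by linarith), abs_le, hm]
      fin_cases j <;> simp [h4, h5, h6, h7] <;> constructor <;> linarith
    have t1 := l1 m r _ hr1 hD
    have t2 := l2 m r _ hr1 hD
    have t3 := l3 m r _ hr1 hD
    have t4 : ∀ y : ℝ, Tendsto (fun n => exp (y + (l n - q n * g) * (2 * (R + S)))) atTop
        (𝓝 (exp y)) := fun y => by
      simpa using ((hl.mul_const (2 * (R + S))).const_add y).rexp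
    refine mem_closure_of_tendsto (((t1.div t2 k2.ne').const_mul _ |>.mul (t4 _)).prodMk_nhds
      ((t3.div t2 k2.ne').const_mul _ |>.mul (t4 _))) ?_
    filter_upwards [hk2, t2.eventually_ne k2.ne', hr1.eventually_gt_atTop 0] with n h1 h2 h3
    obtain ⟨h4, h5, h6, h7⟩ := h1
    have h8 : gap b (m n) (-b) b ≠ 0 := fun h => h2 (by unfold gap at h; rw [h]; simp)
    rw [hE]
    refine ⟨m n, h8, ?_⟩
    have x1 : exp (a * (2 * (P + Q)) + a' * (2 * (R + S)) - (c * (2 * (Q - P)) + c' * (2 * (S - R))) +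
        (e1 * R + e2 * S) + (l n - q n * g) * (2 * (R + S))) = exp P ^ m n 0 * exp R ^ m n 1 *
        exp S ^ m n 2 * exp Q ^ m n 3 := by
      simp only [← exp_nat_mul, ← exp_add, hm, Matrix.cons_val]
      congr 1
      push_cast
      rw [h4, h5, h6, h7]
      linear_combination -2 * q n * hb2
    have x3 : exp (a * (2 * (P + Q)) + a' * (2 * (R + S)) + (c * (2 * (Q - P)) + c' * (2 * (S - R))) +
        (e1 * S + e2 * R) + (l n - q n * g) * (2 * (R + S))) = exp Q ^ m n 0 * exp S ^ m n 1 *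
        exp R ^ m n 2 * exp P ^ m n 3 := by
      simp only [← exp_nat_mul, ← exp_add, hm, Matrix.cons_val]
      congr 1
      push_cast
      rw [h4, h5, h6, h7]
      linear_combination -2 * q n * hb2
    have s1 : (-1 : ℝ) ^ e1 = (-1) ^ m n 1 := by simp [hm, pow_add, pow_mul]
    have s2 : (-1 : ℝ) ^ e2 = (-1) ^ m n 2 := by simp [hm, pow_add, pow_mul]
    simp only [Pi.div_apply, x1, x3, s1, s2, eP, eQ, eR, eS]
    unfold gap at h8 ⊢
    generalize (∫ t in (-b)..b, ∏ j, (t - ![-1, -b, b, 1] j) ^ m n j) = I2 at h8 ⊢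
    generalize (∫ t in (-1)..(-b), ∏ j, (t - ![-1, -b, b, 1] j) ^ m n j) = I1
    generalize (∫ t in b..1, ∏ j, (t - ![-1, -b, b, 1] j) ^ m n j) = I3
    simp only [Fin.prod_univ_four, Matrix.cons_val]
    rw [show -s - -1 = 1 - s by ring, show -s - -b = -1 * (s - b) by ring,
      show -s - b = -1 * (s + b) by ring, show -s - 1 = -1 * (1 + s) by ring,
      show s - -1 = 1 + s by ring, show s - -b = s + b by ring,
      show s - 1 = -1 * (1 - s) by ring, show (0 : ℝ) - -1 = 1 by ring, show 0 - -b = b by ring,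
      show 0 - b = -1 * b by ring, show (0 : ℝ) - 1 = -1 by ring]
    simp only [mul_pow, div_pow, one_pow]
    have u : ∀ k : ℕ, (-1 : ℝ) ^ k ≠ 0 := fun k => pow_ne_zero _ (by norm_num)
    have u1 := u (m n 1)
    have u2 := u (m n 2)
    have u3 := u (m n 3)
    have u4 : ((-1 : ℝ) ^ m n 2) ^ 2 = 1 := by rw [← pow_mul, mul_comm, pow_mul]; simp
    have := hb.ne'
    have := h3.ne'
    refine Prod.ext ?_ ?_
    · simp only; field_simp
    · simp only; field_simp
      rw [u4, one_mul]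
  have hRS : R + S ≠ 0 := fun h => by
    rw [h, mul_zero, add_zero, hPQ] at hb2
    have := log_neg (x := 1 - s ^ 2) (by nlinarith) (by nlinarith)
    linarith
  have d1 : Dense (AddSubgroup.closure {2 * (P + Q), 2 * (R + S)} : Set ℝ) := by
    rw [dense_addSubgroupClosure_pair_iff, show 2 * (P + Q) / (2 * (R + S)) = -g by
      field_simp; linarith]
    exact ig.neg
  have d2 : Dense (AddSubgroup.closure {2 * (Q - P), 2 * (S - R)} : Set ℝ) := by
    rw [dense_addSubgroupClosure_pair_iff, mul_div_mul_left _ _ two_ne_zero, hP, hQ, hR, hS,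
      ← log_div n2 n1, ← log_div (div_ne_zero n4 hb.ne') (div_ne_zero n3 hb.ne'),
      div_div_div_cancel_right₀ hb.ne']
    exact iρ
  have st2 : ∀ (e1 e2 : ℕ) (w : ℝ × ℝ), ((-1) ^ e1 * (K1 / K2) * exp (w.1 - w.2 + (e1 * R + e2 * S)),
      (-1) ^ e2 * (K3 / K2) * exp (w.1 + w.2 + (e1 * S + e2 * R))) ∈ closure E := by
    intro e1 e2 w
    refine closure_minimal (t := {w : ℝ × ℝ | ((-1) ^ e1 * (K1 / K2) *
      exp (w.1 - w.2 + (e1 * R + e2 * S)), (-1) ^ e2 * (K3 / K2) *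
      exp (w.1 + w.2 + (e1 * S + e2 * R))) ∈ closure E}) ?_
      (isClosed_closure.preimage (by fun_prop)) (d1.prod d2 w)
    rintro ⟨σ, τ⟩ ⟨h1, h2⟩
    obtain ⟨a, a', rfl⟩ := AddSubgroup.mem_closure_pair.1 h1
    obtain ⟨c, c', rfl⟩ := AddSubgroup.mem_closure_pair.1 h2
    simpa only [zsmul_eq_mul, Set.mem_ofPred_eq] using st1 e1 e2 a a' c c'
  have sg : ∀ u K : ℝ, u ≠ 0 → 0 < K → ∃ (e : ℕ) (y : ℝ), u = (-1) ^ e * K * exp y := by
    intro u K hu hK
    rcases lt_or_gt_of_ne hu with h | h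
    · exact ⟨1, log (-u / K), by rw [exp_log (div_pos (by linarith) hK)]; field_simp⟩
    · exact ⟨0, log (u / K), by rw [exp_log (div_pos h hK)]; field_simp⟩
  rw [← dense_closure]
  refine ((dense_compl_singleton (0 : ℝ)).prod (dense_compl_singleton (0 : ℝ))).mono ?_
  rintro ⟨u, v⟩ ⟨hu, hv⟩
  obtain ⟨e1, y1, rfl⟩ := sg u _ hu (div_pos k1 k2)
  obtain ⟨e2, y2, rfl⟩ := sg v _ hv (div_pos k3 k2)
  convert st2 e1 e2 ((y1 - (e1 * R + e2 * S) + (y2 - (e1 * S + e2 * R))) / 2,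
    (y2 - (e1 * S + e2 * R) - (y1 - (e1 * R + e2 * S))) / 2) using 4 <;> ring

open Polynomial in
lemma antider (q : ℝ[X]) : ∃ p : ℝ[X], derivative p = q := by
  induction q using Polynomial.induction_on' with
  | add p q hp hq =>
    obtain ⟨p', rfl⟩ := hp
    obtain ⟨q', rfl⟩ := hq
    exact ⟨p' + q', by simp⟩
  | monomial n a =>
    refine ⟨monomial (n + 1) (a / (n + 1)), ?_⟩
    rw [derivative_monomial_succ]
    congr 1
    field_simp

end Pool.Agent.H.MP_57aba6_an
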